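import Pool.Agent.helper89.PU.Spec1

/-!
# Project PU (MP_2e0e07_nt), row BSP
-/

set_option autoImplicit false

namespace Pool.Agent.PV

open Matrix Polynomial Pool.Agent.GO Pool.Agent.AR Pool.Agent.RG Pool.Agent.HZ Pool.Agent.DS
  Pool.Agent.AX Pool.Agent.UM Pool.Agent.PU MeasureTheory NumberField

section alg

variable {κ : Type} [Field κ]

theorem BSP_par {v w : Fin 2 → κ} (hv : v ≠ 0) (h : v 0 * w 1 - v 1 * w 0 = 0) :
    ∃ c : κ, w = c • v := by
  by_cases h0 : v 0 = 0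
  · have h1 : v 1 ≠ 0 := by
      intro h1
      apply hv
      funext i
      fin_cases i
      · exact h0
      · exact h1
    refine ⟨w 1 / v 1, ?_⟩
    funext i
    fin_cases i
    · show w 0 = w 1 / v 1 * v 0
      rw [h0, zero_mul, zero_sub, neg_eq_zero] at h
      rw [h0, mul_zero]
      exact (mul_eq_zero.1 h).resolve_left h1
    · show w 1 = w 1 / v 1 * v 1
      field_simp
  · refine ⟨w 0 / v 0, ?_⟩
    funext i
    fin_cases i
    · show w 0 = w 0 / v 0 * v 0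
      field_simp
    · show w 1 = w 0 / v 0 * v 1
      field_simp
      linear_combination h

/-- the kernel of a matrix `N ≠ 0` is a line -/
theorem BSP_ker {N : Matrix (Fin 2) (Fin 2) κ} (hN : N ≠ 0) {v w : Fin 2 → κ} (hv : v ≠ 0)
    (h1 : N *ᵥ v = 0) (h2 : N *ᵥ w = 0) : ∃ c : κ, w = c • v := by
  apply BSP_par hv
  by_contra hd
  apply hN
  have e1 : ∀ i, N i 0 * v 0 + N i 1 * v 1 = 0 := by
    intro i
    have := congrFun h1 i
    simpa [Matrix.mulVec, dotProduct, Fin.sum_univ_two] using this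
  have e2 : ∀ i, N i 0 * w 0 + N i 1 * w 1 = 0 := by
    intro i
    have := congrFun h2 i
    simpa [Matrix.mulVec, dotProduct, Fin.sum_univ_two] using this
  ext i j
  fin_cases j
  · show N i 0 = 0
    have : (v 0 * w 1 - v 1 * w 0) * N i 0 = 0 := by linear_combination w 1 * e1 i - v 1 * e2 i
    exact (mul_eq_zero.1 this).resolve_left hd
  · show N i 1 = 0
    have : (v 0 * w 1 - v 1 * w 0) * N i 1 = 0 := by linear_combination -w 0 * e1 i + v 0 * e2 i
    exact (mul_eq_zero.1 this).resolve_left hd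

/-- `N Z N = tr (N Z) N` -/
theorem BSP_NZN {N : Matrix (Fin 2) (Fin 2) κ} (hd : N.det = 0) (Z : Matrix (Fin 2) (Fin 2) κ) :
    N * Z * N = (N * Z).trace • N := by
  rw [Matrix.det_fin_two] at hd
  ext i j
  rw [Matrix.smul_apply, Matrix.trace_fin_two]
  simp only [Matrix.mul_apply, Fin.sum_univ_two, smul_eq_mul]
  fin_cases i <;> fin_cases j
  · show (N 0 0 * Z 0 0 + N 0 1 * Z 1 0) * N 0 0 + (N 0 0 * Z 0 1 + N 0 1 * Z 1 1) * N 1 0 =
      (N 0 0 * Z 0 0 + N 0 1 * Z 1 0 + (N 1 0 * Z 0 1 + N 1 1 * Z 1 1)) * N 0 0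
    linear_combination -Z 1 1 * hd
  · show (N 0 0 * Z 0 0 + N 0 1 * Z 1 0) * N 0 1 + (N 0 0 * Z 0 1 + N 0 1 * Z 1 1) * N 1 1 =
      (N 0 0 * Z 0 0 + N 0 1 * Z 1 0 + (N 1 0 * Z 0 1 + N 1 1 * Z 1 1)) * N 0 1
    linear_combination Z 0 1 * hd
  · show (N 1 0 * Z 0 0 + N 1 1 * Z 1 0) * N 0 0 + (N 1 0 * Z 0 1 + N 1 1 * Z 1 1) * N 1 0 =
      (N 0 0 * Z 0 0 + N 0 1 * Z 1 0 + (N 1 0 * Z 0 1 + N 1 1 * Z 1 1)) * N 1 0
    linear_combination Z 1 0 * hd
  · show (N 1 0 * Z 0 0 + N 1 1 * Z 1 0) * N 0 1 + (N 1 0 * Z 0 1 + N 1 1 * Z 1 1) * N 1 1 =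
      (N 0 0 * Z 0 0 + N 0 1 * Z 1 0 + (N 1 0 * Z 0 1 + N 1 1 * Z 1 1)) * N 1 1
    linear_combination -Z 0 0 * hd

theorem BSP_sq {N : Matrix (Fin 2) (Fin 2) κ} (hd : N.det = 0) (ht : N.trace = 0) : N * N = 0 := by
  have h := BSP_NZN hd 1
  rw [mul_one, ht, zero_smul] at h
  exact h

/-- second difference of the conjugation by `1 + N` -/
theorem BSP_T2 {N : Matrix (Fin 2) (Fin 2) κ} (hN : N * N = 0) (Z : Matrix (Fin 2) (Fin 2) κ) :
    (1 + N) * ((1 + N) * Z * (1 - N)) * (1 - N) - (1 + N) * Z * (1 - N) - ((1 + N) * Z * (1 - N) - Z)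
      = (-2 : κ) • (N * Z * N) := by
  have e1 : (1 + N) * (1 + N) = 1 + (2 : κ) • N := by
    have : (1 + N) * (1 + N) = 1 + (N + N) + N * N := by noncomm_ring
    rw [this, hN, add_zero, two_smul]
  have e2 : (1 - N) * (1 - N) = 1 - (2 : κ) • N := by
    have : (1 - N) * (1 - N) = 1 - (N + N) + N * N := by noncomm_ring
    rw [this, hN, add_zero, two_smul]
  have e3 : (1 + N) * ((1 + N) * Z * (1 - N)) * (1 - N) =
      ((1 + N) * (1 + N)) * Z * ((1 - N) * (1 - N)) := by simp only [mul_assoc]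
  rw [e3, e1, e2]
  simp only [add_mul, mul_sub, one_mul, mul_one, Matrix.smul_mul, Matrix.mul_smul, mul_assoc]
  module

end alg

section rep

variable {Γ κ : Type} [Group Γ] [Field κ] (S : Γ →* Matrix (Fin 2) (Fin 2) κ)

/-- the image vector `v` of `N` is an eigenvector of `B` if `tr (N B) = 0` -/
theorem BSP_eig {N B : Matrix (Fin 2) (Fin 2) κ} (hN : N ≠ 0) (hd : N.det = 0) (ht : N.trace = 0)
    {e v : Fin 2 → κ} (he : N *ᵥ e = v) (hv : v ≠ 0) (h : (N * B).trace = 0) :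
    ∃ c : κ, B *ᵥ v = c • v := by
  have h1 : N * B * N = 0 := by rw [BSP_NZN hd, h, zero_smul]
  apply BSP_ker hN hv
  · rw [← he, mulVec_mulVec, BSP_sq hd ht, zero_mulVec]
  · rw [← he, mulVec_mulVec, mulVec_mulVec, h1, zero_mulVec]

theorem BSP_ne (g : Γ) {v : Fin 2 → κ} (hv : v ≠ 0) : S g *ᵥ v ≠ 0 := by
  intro h
  apply hv
  have h1 : S g⁻¹ *ᵥ (S g *ᵥ v) = v := by rw [mulVec_mulVec, hom_inv_mul', one_mulVec]
  rw [← h1, h, mulVec_zero]

theorem BSP_move (hirr : Irred (fun g => S g)) {v : Fin 2 → κ} (hv : v ≠ 0) :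
    ∃ g, ∀ c : κ, S g *ᵥ v ≠ c • v := by
  by_contra hcon
  push Not at hcon
  rcases hirr.2 (Submodule.span κ {v}) (by
    intro g u hu
    obtain ⟨a, rfl⟩ := Submodule.mem_span_singleton.1 hu
    obtain ⟨c, hc⟩ := hcon g
    rw [mulVec_smul, hc]
    exact Submodule.smul_mem _ _ (Submodule.smul_mem _ _ (Submodule.mem_span_singleton_self v)))
    with h | h
  · rw [Submodule.span_singleton_eq_bot] at h
    exact hv h
  · have h1 : Module.finrank κ (Submodule.span κ {v}) = 1 := finrank_span_singleton hv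
    rw [h, finrank_top, Module.finrank_fintype_fun_eq_card, Fintype.card_fin] at h1
    omega

/-- the orbit of `v` is not made of eigenvectors of `Y` -/
theorem BSP_K (hirr : Irred (fun g => S g)) (s : Γ) {N Y : Matrix (Fin 2) (Fin 2) κ} (hN : N ≠ 0)
    (hNN : N * N = 0) (hs : S s = 1 + N) {e v : Fin 2 → κ} (he : N *ᵥ e = v) (hv : v ≠ 0)
    (hY : ∀ c : κ, Y ≠ c • 1) (h : ∀ g, ∃ c : κ, Y *ᵥ (S g *ᵥ v) = c • (S g *ᵥ v)) : False := by
  obtain ⟨g, hg⟩ := BSP_move S hirr hv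
  have hNv : N *ᵥ v = 0 := by rw [← he, mulVec_mulVec, hNN, zero_mulVec]
  obtain ⟨v', hv'⟩ : ∃ v' : Fin 2 → κ, v' = S g *ᵥ v := ⟨_, rfl⟩
  rw [← hv'] at hg
  obtain ⟨l', hl'⟩ := h g
  rw [← hv'] at hl'
  obtain ⟨l, hl⟩ := h 1
  rw [map_one, one_mulVec] at hl
  -- `N v' = c v`
  obtain ⟨c, hc⟩ : ∃ c : κ, N *ᵥ v' = c • v := by
    apply BSP_ker hN hv hNv
    rw [mulVec_mulVec, hNN, zero_mulVec]
  have hc0 : c ≠ 0 := by
    intro h0
    rw [h0, zero_smul] at hc
    obtain ⟨b, hb⟩ := BSP_ker hN hv hNv hc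
    exact hg b hb
  obtain ⟨μ, hμ⟩ := h (s * g)
  have h1 : S (s * g) *ᵥ v = v' + c • v := by
    rw [map_mul, ← mulVec_mulVec, ← hv', hs, add_mulVec, one_mulVec, hc]
  rw [h1, mulVec_add, mulVec_smul, hl, hl'] at hμ
  -- independence
  have hind : ∀ a b : κ, a • v' + b • v = 0 → a = 0 ∧ b = 0 := by
    intro a b hab
    have ha : a = 0 := by
      by_contra ha
      apply hg (-(a⁻¹ * b))
      have h2 : v' = a⁻¹ • (a • v') := by rw [smul_smul, inv_mul_cancel₀ ha, one_smul]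
      rw [h2, eq_neg_of_add_eq_zero_left hab, smul_neg, smul_smul, neg_smul]
    refine ⟨ha, ?_⟩
    rw [ha, zero_smul, zero_add] at hab
    exact (smul_eq_zero.1 hab).resolve_right hv
  have h2 : (l' - μ) • v' + (c * l - μ * c) • v = 0 := by
    have h3 : (l' - μ) • v' + (c * l - μ * c) • v =
        (l' • v' + c • l • v) - μ • (v' + c • v) := by module
    rw [h3, hμ, sub_self]
  obtain ⟨h3, h4⟩ := hind _ _ h2
  have h5 : l = μ := by
    have : c * (l - μ) = 0 := by linear_combination h4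
    exact sub_eq_zero.1 ((mul_eq_zero.1 this).resolve_left hc0)
  have h6 : l = l' := by rw [h5]; exact (sub_eq_zero.1 h3).symm
  apply hY l
  -- `Y - l` kills `v` and `v'`
  by_contra hne
  have hne2 : Y - l • 1 ≠ 0 := fun h0 => hne (sub_eq_zero.1 h0)
  obtain ⟨b, hb⟩ := BSP_ker hne2 hv (w := v')
    (by rw [sub_mulVec, smul_mulVec, one_mulVec, hl, sub_self])
    (by rw [sub_mulVec, smul_mulVec, one_mulVec, hl', h6, sub_self])
  exact hg b hb

end rep

theorem BSP : BSP_stmt := by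
  intro p _ Γ κ _ _ _ _ S hp3 hBig Y hY
  by_contra hcon
  push Not at hcon
  obtain ⟨hirr, s, hs⟩ := hBig
  have h2 : (2 : κ) ≠ 0 := by
    intro h0
    have h1 : ((2 : ℕ) : κ) = 0 := by exact_mod_cast h0
    have h3 := (CharP.cast_eq_zero_iff κ p 2).1 h1
    have := Nat.le_of_dvd (by norm_num) h3
    omega
  -- the nilpotent matrix
  obtain ⟨N, hN⟩ : ∃ N : Matrix (Fin 2) (Fin 2) κ, N = S s - 1 := ⟨_, rfl⟩
  have hNp : N ^ p = 0 := by
    have h1 : CharP (Matrix (Fin 2) (Fin 2) κ) p := inferInstance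
    rw [hN, sub_pow_char_of_commute (R := Matrix (Fin 2) (Fin 2) κ) (p := p) (Commute.one_right _), one_pow, ← hs,
      pow_orderOf_eq_one, sub_self]
  have hp0 : p ≠ 0 := by omega
  have hN0 : N ≠ 0 := by
    intro h0
    have h1 : S s = 1 := by rw [← sub_eq_zero, ← hN, h0]
    rw [h1, orderOf_one] at hs
    omega
  have hdet : N.det = 0 := by
    have h1 : N.det ^ p = 0 := by rw [← Matrix.det_pow, hNp, Matrix.det_zero]
    exact pow_eq_zero_iff hp0 |>.1 h1
  have htr : N.trace = 0 := by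
    have h1 : IsNilpotent N.trace := Matrix.isNilpotent_trace_of_isNilpotent ⟨p, hNp⟩
    exact h1.eq_zero
  have hNN := BSP_sq hdet htr
  have hs1 : S s = 1 + N := by rw [hN]; abel
  have hs2 : S s⁻¹ = 1 - N := by
    have h1 : (1 + N) * (1 - N) = 1 := by
      have : (1 + N) * (1 - N) = 1 - N * N := by noncomm_ring
      rw [this, hNN, sub_zero]
    calc S s⁻¹ = S s⁻¹ * ((1 + N) * (1 - N)) := by rw [h1, mul_one]
      _ = (S s⁻¹ * S s) * (1 - N) := by rw [← hs1, mul_assoc]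
      _ = 1 - N := by rw [hom_inv_mul', one_mul]
  obtain ⟨e, he⟩ : ∃ e : Fin 2 → κ, N *ᵥ e ≠ 0 := by
    by_contra hc
    push Not at hc
    apply hN0
    ext i j
    have h1 := congrFun (hc (Pi.single j 1)) i
    rw [mulVec_single_one] at h1
    exact h1
  obtain ⟨v, hv⟩ : ∃ v : Fin 2 → κ, N *ᵥ e = v := ⟨_, rfl⟩
  have hv0 : v ≠ 0 := by rw [← hv]; exact he
  -- the functional
  let w : Γ → Fin 3 → κ := fun g => ![(S g * Y * S g⁻¹) 0 1, (S g * Y * S g⁻¹) 1 0,
    (S g * Y * S g⁻¹) 0 0 - (S g * Y * S g⁻¹) 1 1]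
  have hlt : Submodule.span κ (Set.range w) < ⊤ := by
    rw [lt_top_iff_ne_top]
    intro htop
    obtain ⟨f, hf1, hf2, hf3⟩ := Submodule.exists_fun_fin_finrank_span_eq κ (Set.range w)
    have hfr : Module.finrank κ (Submodule.span κ (Set.range w)) = 3 := by
      rw [htop, finrank_top, Module.finrank_fintype_fun_eq_card, Fintype.card_fin]
    let f' : Fin 3 → Fin 3 → κ := fun i => f (Fin.cast hfr.symm i)
    have hf' : LinearIndependent κ f' := hf3.comp _ (Fin.cast_injective hfr.symm)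
    obtain ⟨a, ha⟩ := hf1 (Fin.cast hfr.symm 0)
    obtain ⟨b, hb⟩ := hf1 (Fin.cast hfr.symm 1)
    obtain ⟨c, hc⟩ := hf1 (Fin.cast hfr.symm 2)
    have hd := hcon a b c
    have hM : (Matrix.of f').det = 0 := by
      rw [← hd]
      unfold d3
      congr 1
      ext i j
      fin_cases i
      · show f (Fin.cast hfr.symm 0) j = _
        rw [← ha]
        fin_cases j <;> rfl
      · show f (Fin.cast hfr.symm 1) j = _
        rw [← hb]
        fin_cases j <;> rfl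
      · show f (Fin.cast hfr.symm 2) j = _
        rw [← hc]
        fin_cases j <;> rfl
    have hu : IsUnit (Matrix.of f') := Matrix.linearIndependent_rows_iff_isUnit.1 hf'
    rw [Matrix.isUnit_iff_isUnit_det, hM] at hu
    exact not_isUnit_zero hu
  obtain ⟨φ, hφ0, hφ⟩ := Submodule.exists_le_ker_of_lt_top _ hlt
  obtain ⟨B, hB⟩ : ∃ B : Matrix (Fin 2) (Fin 2) κ, B = !![φ (Pi.single 2 1), φ (Pi.single 1 1);
    φ (Pi.single 0 1), -φ (Pi.single 2 1)] := ⟨_, rfl⟩
  have hBt : ∀ g, (B * (S g * Y * S g⁻¹)).trace = 0 := by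
    intro g
    have h1 : φ (w g) = 0 := hφ (Submodule.subset_span ⟨g, rfl⟩)
    have h3 : w g = (w g 0) • (Pi.single 0 1 : Fin 3 → κ) + (w g 1) • (Pi.single 1 1 : Fin 3 → κ) +
        (w g 2) • (Pi.single 2 1 : Fin 3 → κ) := by
      funext i
      fin_cases i <;> simp
    rw [h3, map_add, map_add, map_smul, map_smul, map_smul] at h1
    rw [Matrix.trace_fin_two, hB]
    have e0 : w g 0 = (S g * Y * S g⁻¹) 0 1 := rfl
    have e1 : w g 1 = (S g * Y * S g⁻¹) 1 0 := rfl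
    have e2 : w g 2 = (S g * Y * S g⁻¹) 0 0 - (S g * Y * S g⁻¹) 1 1 := rfl
    rw [e0, e1, e2] at h1
    simp only [smul_eq_mul] at h1
    rw [Matrix.mul_apply, Matrix.mul_apply, Fin.sum_univ_two, Fin.sum_univ_two]
    simp only [Matrix.of_apply, Matrix.cons_val', Matrix.cons_val_zero, Matrix.cons_val_one,
      Matrix.cons_val_fin_one]
    linear_combination h1
  have hBs : ∀ c : κ, B ≠ c • 1 := by
    intro c hc
    apply hφ0
    have e00 := congrFun (congrFun hc 0) 0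
    have e01 := congrFun (congrFun hc 0) 1
    have e10 := congrFun (congrFun hc 1) 0
    have e11 := congrFun (congrFun hc 1) 1
    rw [hB] at e00 e01 e10 e11
    simp at e00 e01 e10 e11
    have h3 : φ (Pi.single 2 1) = 0 := by
      have : (2 : κ) * φ (Pi.single 2 1) = 0 := by linear_combination e00 - e11
      exact (mul_eq_zero.1 this).resolve_left h2
    refine LinearMap.pi_ext' fun i => ?_
    ext
    fin_cases i
    · simpa using e10
    · simpa using e01
    · simpa using h3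
  -- conjugates
  have htrc : ∀ (g : Γ) (A C : Matrix (Fin 2) (Fin 2) κ),
      (A * (S g * C * S g⁻¹)).trace = ((S g⁻¹ * A * S g) * C).trace := by
    intro g A C
    rw [← mul_assoc, ← mul_assoc, Matrix.trace_mul_comm, ← mul_assoc, ← mul_assoc]
  have hNW : ∀ g, (B * (S g * N * S g⁻¹)).trace = 0 := by
    obtain ⟨h0, hh0⟩ : ∃ h : Γ, (N * (S h⁻¹ * Y * S h)).trace ≠ 0 := by
      by_contra hc
      push Not at hc
      refine BSP_K S hirr s hN0 hNN hs1 hv hv0 hY fun g => ?_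
      obtain ⟨c, hc⟩ := BSP_eig hN0 hdet htr hv hv0 (hc g)
      refine ⟨c, ?_⟩
      have h4 : Y *ᵥ (S g *ᵥ v) = S g *ᵥ ((S g⁻¹ * Y * S g) *ᵥ v) := by
        rw [mulVec_mulVec, mulVec_mulVec]
        congr 1
        rw [← mul_assoc, ← mul_assoc, hom_mul_inv', one_mul]
      rw [h4, hc, mulVec_smul]
    obtain ⟨Z, hZ⟩ : ∃ Z : Matrix (Fin 2) (Fin 2) κ, Z = S h0⁻¹ * Y * S h0 := ⟨_, rfl⟩
    rw [← hZ] at hh0
    have hZW : ∀ g, (B * (S g * Z * S g⁻¹)).trace = 0 := by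
      intro g
      have h5 := hBt (g * h0⁻¹)
      rw [_root_.mul_inv_rev, inv_inv, map_mul, map_mul] at h5
      rw [hZ]
      have h6 : S g * (S h0⁻¹ * Y * S h0) * S g⁻¹ = S g * S h0⁻¹ * Y * (S h0 * S g⁻¹) := by
        simp only [mul_assoc]
      rw [h6]
      exact h5
    intro g
    have a1 := hZW g
    have a2 := hZW (g * s)
    have a3 := hZW (g * s * s)
    have b2 : S (g * s) * Z * S (g * s)⁻¹ = S g * ((1 + N) * Z * (1 - N)) * S g⁻¹ := by
      rw [_root_.mul_inv_rev, map_mul, map_mul, hs1, hs2]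
      simp only [mul_assoc]
    have b3 : S (g * s * s) * Z * S (g * s * s)⁻¹ =
        S g * ((1 + N) * ((1 + N) * Z * (1 - N)) * (1 - N)) * S g⁻¹ := by
      rw [_root_.mul_inv_rev, _root_.mul_inv_rev, map_mul, map_mul, map_mul, map_mul, hs1, hs2]
      simp only [mul_assoc]
    rw [b2] at a2
    rw [b3] at a3
    have h7 := BSP_T2 hNN Z
    rw [BSP_NZN hdet] at h7
    have h8 : (B * (S g * ((-2 : κ) • ((N * Z).trace • N)) * S g⁻¹)).trace = 0 := by
      rw [← h7]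
      simp only [mul_sub, sub_mul, Matrix.trace_sub]
      rw [a1]
      have a2' := a2
      simp only [mul_sub, sub_mul, Matrix.trace_sub] at a2 a3 ⊢
      linear_combination a3 - 2 * a2
    rw [Matrix.mul_smul, Matrix.mul_smul, Matrix.smul_mul, Matrix.smul_mul, Matrix.mul_smul,
      Matrix.mul_smul, Matrix.trace_smul, Matrix.trace_smul, smul_eq_mul, smul_eq_mul] at h8
    rcases mul_eq_zero.1 h8 with h9 | h9
    · exact absurd h9 (neg_ne_zero.2 h2)
    · exact (mul_eq_zero.1 h9).resolve_left hh0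
  refine BSP_K S hirr s hN0 hNN hs1 hv hv0 hBs fun g => ?_
  have h4 : (N * (S g⁻¹ * B * S g)).trace = 0 := by
    rw [Matrix.trace_mul_comm, ← htrc]
    exact hNW g
  obtain ⟨c, hc⟩ := BSP_eig hN0 hdet htr hv hv0 h4
  refine ⟨c, ?_⟩
  have h5 : B *ᵥ (S g *ᵥ v) = S g *ᵥ ((S g⁻¹ * B * S g) *ᵥ v) := by
    rw [mulVec_mulVec, mulVec_mulVec]
    congr 1
    rw [← mul_assoc, ← mul_assoc, hom_mul_inv', one_mul]
  rw [h5, hc, mulVec_smul]

end Pool.Agent.PV
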