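import Pool.Agent.helper16.PU.Spec2
import Pool.Agent.helper64.AX.CRA
import Pool.Agent.helper60.AX.CRB
import Pool.Agent.helper44.AX.YA

/-!
# Project PU (MP_2e0e07_nt), row ALQ
-/

set_option autoImplicit false

namespace Pool.Agent.PU

open Matrix Polynomial Pool.Agent.GO Pool.Agent.AR Pool.Agent.RG Pool.Agent.HZ Pool.Agent.DS
  Pool.Agent.AX Pool.Agent.UM NumberField

section one

variable {F : Type} [NormedField F]

/-- `FIX_Q` in terms of `nu` -/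
theorem ALQ_Q_iff {Γ : Type} [Group Γ] (ρ : Γ →* Matrix (Fin 2) (Fin 2) F) (ε : ℝ) (g : Γ) :
    FIX_Q ρ ε g ↔ nu (ρ g) ≤ ε := by
  unfold FIX_Q nu
  rw [max_le_iff, max_le_iff, and_assoc]

theorem ALQ_nu_nonneg (A : Matrix (Fin 2) (Fin 2) F) : 0 ≤ nu A :=
  (norm_nonneg _).trans (le_max_right _ _)

theorem ALQ_nu_cont {Γ : Type} [TopologicalSpace Γ] (f : Γ → Matrix (Fin 2) (Fin 2) F)
    (hf : Continuous f) : Continuous fun g => nu (f g) := by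
  unfold nu
  exact ((hf.matrix_elem 0 1).norm.max (hf.matrix_elem 1 0).norm).max
    ((hf.matrix_elem 0 0).sub (hf.matrix_elem 1 1)).norm

/-- an element close to the scalars has a small power -/
theorem ALQ_pow (p : ℕ) [Fact p.Prime] [NormedAlgebra ℚ_[p] F] {Γ : Type} [Group Γ]
    (ρ : Γ →* Matrix (Fin 2) (Fin 2) F) (hint : ∀ g a b, ‖ρ g a b‖ ≤ 1) (g : Γ)
    (h : nu (ρ g) < 1) (ε : ℝ) (hε : 0 < ε) : ∃ k : ℕ, nu (ρ (g ^ p ^ k)) ≤ ε := by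
  have hultra : IsUltrametricDist F := IsUltrametricDist.of_normedAlgebra ℚ_[p]
  have hp1 : 1 < (p : ℝ) := by exact_mod_cast (Fact.out : p.Prime).one_lt
  have hpi1 : (p : ℝ)⁻¹ < 1 := inv_lt_one_of_one_lt₀ hp1
  have h1 : ‖ρ g 0 1‖ < 1 := ((le_max_left _ _).trans (le_max_left _ _)).trans_lt h
  have h2 : ‖ρ g 1 0‖ < 1 := ((le_max_right _ _).trans (le_max_left _ _)).trans_lt h
  have hc1 : ‖ρ g 0 0‖ = 1 := by
    by_contra hne
    have hlt : ‖ρ g 0 0‖ < 1 := lt_of_le_of_ne (hint _ _ _) hne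
    have hdet := FIX_det ρ hint g
    rw [Matrix.det_fin_two] at hdet
    have hlt2 : ‖ρ g 0 0 * ρ g 1 1 - ρ g 0 1 * ρ g 1 0‖ < 1 := by
      rw [sub_eq_add_neg]
      refine (IsUltrametricDist.norm_add_le_max _ _).trans_lt (max_lt ?_ ?_)
      · rw [norm_mul]
        exact mul_lt_one_of_nonneg_of_lt_one_left (norm_nonneg _) hlt (hint _ _ _)
      · rw [norm_neg, norm_mul]
        exact mul_lt_one_of_nonneg_of_lt_one_left (norm_nonneg _) h1 (hint _ _ _)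
    rw [hdet] at hlt2
    exact lt_irrefl _ hlt2
  have hc0 : ρ g 0 0 ≠ 0 := by
    intro h0
    rw [h0, norm_zero] at hc1
    exact zero_ne_one hc1
  obtain ⟨δ, hδ⟩ : ∃ δ : ℝ, δ = nu (ρ g) := ⟨_, rfl⟩
  have hδ0 : 0 ≤ δ := by rw [hδ]; exact ALQ_nu_nonneg _
  have hδ1 : δ < 1 := by rw [hδ]; exact h
  let lam : ℝ := max ‖(p : F)‖ δ
  have hl1 : lam < 1 := max_lt (by rw [FIX_norm_p p F]; exact hpi1) hδ1
  have hl0 : 0 ≤ lam := hδ0.trans (le_max_right _ _)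
  have hQ : FIX_Q ρ δ g := (ALQ_Q_iff ρ δ g).2 hδ.ge
  have hQ2 := FIX_Q_to ρ hδ0 hQ
  set c := ρ g 0 0 with hc
  have hcinv : ‖c⁻¹‖ ≤ 1 := by rw [norm_inv, hc1, inv_one]
  have hA : FIX_Sm δ (c⁻¹ • ρ g - 1) := by
    have : c⁻¹ • ρ g - 1 = c⁻¹ • (ρ g - c • 1) := by
      rw [smul_sub, smul_smul, inv_mul_cancel₀ hc0, one_smul]
    rw [this]
    exact FIX_smul hδ0 hcinv hQ2
  have hlim2 : Filter.Tendsto (fun k : ℕ => lam ^ k * δ) Filter.atTop (nhds 0) := by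
    have := (tendsto_pow_atTop_nhds_zero_of_lt_one hl0 hl1).mul_const δ
    simpa using this
  obtain ⟨k, hk⟩ := (hlim2.eventually (gt_mem_nhds hε)).exists
  refine ⟨k, ?_⟩
  rw [← ALQ_Q_iff]
  apply FIX_Q_of ρ (c := c ^ p ^ k)
  have h4 : ρ (g ^ p ^ k) - c ^ p ^ k • (1 : Matrix (Fin 2) (Fin 2) F) =
      c ^ p ^ k • ((c⁻¹ • ρ g) ^ p ^ k - 1) := by
    rw [smul_sub, _root_.smul_pow, smul_smul, inv_pow, mul_inv_cancel₀ (pow_ne_zero _ hc0), one_smul,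
      map_pow]
  rw [h4]
  refine FIX_smul hε.le ?_ (FIX_mono hk.le
    (YA_pow3 p lam (le_max_left _ _) hl1.le hδ0 (le_max_right _ _) _ hA k))
  rw [norm_pow, hc1, one_pow]

theorem ALQ_closed_L {Γ : Type} [Group Γ] [TopologicalSpace Γ] [IsUltrametricDist F]
    (ρ : Γ →* Matrix (Fin 2) (Fin 2) F) (hρ : Continuous ρ)
    (hint : ∀ g a b, ‖ρ g a b‖ ≤ 1) (ε : ℝ) (hε : 0 ≤ ε) :
    IsClosed (FIX_L ρ hint ε hε : Set Γ) := by
  have h : (FIX_L ρ hint ε hε : Set Γ) = {g | nu (ρ g) ≤ ε} := by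
    ext g
    exact ALQ_Q_iff ρ ε g
  rw [h]
  exact isClosed_le (ALQ_nu_cont _ hρ) continuous_const

end one

theorem ALQ_closed_zker {Γ : Type} [Group Γ] [TopologicalSpace Γ] {r : ℕ} {n : Fin r → ℕ}
    (V : (q : ℕ) → [Fact q.Prime] → (i : Fin r) → Γ →* Matrix (Fin (n i)) (Fin (n i)) ℤ_[q])
    (hV : ∀ (q : ℕ) [Fact q.Prime] (i : Fin r), Continuous (V q i)) {J : Type} {F : J → Type}
    [∀ j, NormedField (F j)] (ρ : ∀ j, Γ →* Matrix (Fin 2) (Fin 2) (F j))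
    (hρ : ∀ j, Continuous (ρ j)) (j : J) : IsClosed (zker V ρ j : Set Γ) := by
  have e : (zker V ρ j : Set Γ) = (⋂ (q : ℕ) (_ : Fact q.Prime) (i : Fin r), ((V q i).ker : Set Γ)) ∩
      ⋂ k : {k : J // k ≠ j}, (adKer (ρ k.1) : Set Γ) := by
    unfold zker
    ext g
    simp only [Subgroup.coe_inf, Set.mem_inter_iff, SetLike.mem_coe, CRA_mem_kerAll,
      Subgroup.mem_iInf, Set.mem_iInter, MonoidHom.mem_ker]
  rw [e]
  refine IsClosed.inter ?_ ?_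
  · exact isClosed_iInter fun q => isClosed_iInter fun _ => isClosed_iInter fun i =>
      CRA_closed_ker _ (hV q i)
  · exact isClosed_iInter fun k => CRA_closed_adKer _ (hρ k.1)

theorem ALQ (hLPC : LPC_stmt) (hYV : YV_stmt) (hYA : YA_stmt) : ALQ_stmt := by
  intro Γ _ _ _ _ r n V hV J p _ hp F κ _ _ _ _ _ _ red hred ρ hρ hρ1 m hm hn j x hx hx1 g
  by_contra hcon
  push Not at hcon
  have hultra : IsUltrametricDist (F j) := IsUltrametricDist.of_normedAlgebra ℚ_[p j]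
  obtain ⟨t, ht⟩ : ∃ t : ℝ, t = nu (ρ j (cmt m.factorial x (g * x * g⁻¹))) := ⟨_, rfl⟩
  rw [← ht] at hcon
  -- a maximum on `Z`
  have hZc : IsClosed (zker V ρ j : Set Γ) := ALQ_closed_zker V hV ρ hρ j
  have hcont : Continuous fun z => nu (ρ j z) := ALQ_nu_cont _ (hρ j)
  obtain ⟨z₀, hz₀, hmax⟩ := hZc.isCompact.exists_isMaxOn ⟨1, (zker V ρ j).one_mem⟩
    hcont.continuousOn
  have hB : nu (ρ j z₀) < t := hcon z₀ hz₀
  have ht0 : 0 < t := (ALQ_nu_nonneg _).trans_lt hB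
  obtain ⟨ε, hε⟩ : ∃ ε : ℝ, ε = max (nu (ρ j z₀)) (t / 2) := ⟨_, rfl⟩
  have hε0 : 0 < ε := by rw [hε]; exact (half_pos ht0).trans_le (le_max_right _ _)
  have hεt : ε < t := by rw [hε]; exact max_lt hB (half_lt_self ht0)
  have hZN : zker V ρ j ≤ FIX_L (ρ j) (hρ1 j) ε hε0.le := by
    intro z hz
    show FIX_Q (ρ j) ε z
    rw [ALQ_Q_iff]
    have h1 : nu (ρ j z) ≤ nu (ρ j z₀) := hmax hz
    exact h1.trans (by rw [hε]; exact le_max_left _ _)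
  -- the group `M`
  obtain ⟨δ, hδ⟩ : ∃ δ : ℝ, δ = nu (ρ j x) := ⟨_, rfl⟩
  have hδ0 : 0 ≤ δ := by rw [hδ]; exact ALQ_nu_nonneg _
  have hδ1 : δ < 1 := by rw [hδ]; exact hx1
  obtain ⟨M, hM⟩ : ∃ M : Subgroup Γ, M = kerV (V (p j)) ⊓ FIX_L (ρ j) (hρ1 j) δ hδ0 := ⟨_, rfl⟩
  have hMc : IsClosed (M : Set Γ) := by
    rw [hM, Subgroup.coe_inf]
    exact (CRB_closed _ (hV (p j))).inter (ALQ_closed_L _ (hρ j) _ _ _)
  have hMn : M.Normal := by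
    have n1 : (kerV (V (p j))).Normal := CRB_normal _
    have n2 : (FIX_L (ρ j) (hρ1 j) δ hδ0).Normal := FIX_L_normal _ _ _ _
    rw [hM]
    exact Subgroup.normal_inf_normal _ _
  have hxM : x ∈ M := by
    rw [hM]
    refine ⟨hx, ?_⟩
    show FIX_Q (ρ j) δ x
    rw [ALQ_Q_iff]
    exact hδ.ge
  have hyM : g * x * g⁻¹ ∈ M := hMn.conj_mem x hxM g
  have hpow : ∀ y ∈ M, ∃ k, y ^ p j ^ k ∈ FIX_L (ρ j) (hρ1 j) ε hε0.le := by
    intro y hy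
    rw [hM] at hy
    have h1 : nu (ρ j y) ≤ δ := (ALQ_Q_iff (ρ j) δ y).1 hy.2
    obtain ⟨k, hk⟩ := ALQ_pow (p j) (ρ j) (hρ1 j) y (h1.trans_lt hδ1) ε hε0
    exact ⟨k, (ALQ_Q_iff (ρ j) ε _).2 hk⟩
  -- the layers
  let A : Type := ({q : ℕ // q.Prime ∧ q ≠ p j} × Fin r) ⊕ {k : J // k ≠ j}
  let qq : A → ℕ := Sum.elim (fun x => x.1.1) (fun k => p k.1)
  let K : A → Subgroup Γ := Sum.elim
    (fun x => (@V x.1.1 ⟨x.1.2.1⟩ x.2).ker) (fun k => adKer (ρ k.1))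
  have hA : ∀ a, (qq a).Prime ∧ qq a ≠ p j ∧ HasLayer (qq a) m (K a) := by
    rintro (⟨⟨q, hq, hqp⟩, i⟩ | ⟨k, hk⟩)
    · have : Fact q.Prime := ⟨hq⟩
      exact ⟨hq, hqp, hYV q (n i) m (hn i) Γ (V q i) (hV q i)⟩
    · have hpk : (p k).Prime := Fact.out
      exact ⟨hpk, fun h => hk (hp h),
        hYA (p k) m hm Γ (F k) (κ k) (red k) (hred k) (ρ k) (hρ k) (hρ1 k)⟩
  have hle : (M ⊓ ⨅ a, K a) ≤ FIX_L (ρ j) (hρ1 j) ε hε0.le := by
    refine le_trans ?_ hZN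
    intro y hy
    obtain ⟨hy1, hy2⟩ := Subgroup.mem_inf.1 hy
    rw [hM] at hy1
    have hy3 := (CRA_mem_kerV _ _).1 hy1.1
    rw [Subgroup.mem_iInf] at hy2
    unfold zker
    rw [Subgroup.mem_inf, CRA_mem_kerAll, Subgroup.mem_iInf]
    refine ⟨fun q hq i => ?_, fun k => hy2 (Sum.inr k)⟩
    by_cases hqp : q = p j
    · subst hqp
      exact hy3 i
    · exact hy2 (Sum.inl (⟨q, hq.out, hqp⟩, i))
  have hfin := hLPC (p j) m Γ M hMc A qq K hA _ (FIX_L_normal (ρ j) (hρ1 j) ε hε0.le)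
    (FIX_L_open (ρ j) (hρ1 j) (hρ j) ε hε0) hpow hle x hxM _ hyM
  have h1 : nu (ρ j (cmt m.factorial x (g * x * g⁻¹))) ≤ ε := (ALQ_Q_iff (ρ j) ε _).1 hfin
  rw [← ht] at h1
  exact absurd (h1.trans_lt hεt) (lt_irrefl _)

end Pool.Agent.PU
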